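import Mathlib

/-!
# Certificates for the vanishing of the Jacobson radical of a group algebra: algebra
-/

set_option autoImplicit false

namespace Pool.Agent.L7h59.GG

/-- The Jacobson radical of a ring contains no nonzero idempotent. -/
lemma idem_not_mem {R : Type*} [Ring R] {e : R} (he : e * e = e) (h : e ∈ Ring.jacobson R) :
    e = 0 := by
  rw [← Ideal.jacobson_bot, Ideal.mem_jacobson_iff] at h
  obtain ⟨z, hz⟩ := h (-1)
  rw [Ideal.mem_bot] at hz
  have h1 : z * (1 - e) = 1 := by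
    rw [mul_sub, mul_one]
    have : z * -1 * e + z - 1 = 0 := hz
    rw [mul_assoc, neg_one_mul, mul_neg] at this
    have h2 : z - z * e - 1 = 0 := by rw [← this]; abel
    exact sub_eq_zero.1 h2
  have h2 : z * (1 - e) * e = e := by rw [h1, one_mul]
  rw [mul_assoc, sub_mul, one_mul, he, sub_self, mul_zero] at h2
  exact h2.symm

section cert
variable {G : Type*} [Group G]

/-- The element `z_j`. -/
def zz (σ U : ℕ → G) (s₀ : G) (j : ℕ) : G := (σ j * s₀)⁻¹ * (U j)⁻¹ * (σ j * s₀) * U j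

/-- A finite system of equations and inequations in a group. -/
structure Cert (q : ℕ) (l : List ℕ) (s σ U : ℕ → G) (s₀ : G) : Prop where
  c1 : ∀ i ∈ l, ∀ j ∈ l, i ≠ j → σ i * σ j = σ j * σ i
  c1' : ∀ i ∈ l, ∀ j ∈ l, i ≠ j → σ i * U j = U j * σ i
  c1'' : ∀ i ∈ l, ∀ j ∈ l, i ≠ j → U i * U j = U j * U i
  c2 : ∀ j ∈ l, σ j * s j * U j = U j * (σ j * s j)
  c3 : ∀ j ∈ l, zz σ U s₀ j ^ q = 1
  c4 : ∀ i ∈ l, ∀ j ∈ l, i ≠ j → zz σ U s₀ i * U j = U j * zz σ U s₀ i
  c4' : ∀ i ∈ l, ∀ j ∈ l, i ≠ j → zz σ U s₀ i * zz σ U s₀ j = zz σ U s₀ j * zz σ U s₀ i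
  c5 : ∀ l' ∈ l.sublists, l' ≠ [] → (l'.map (zz σ U s₀)).prod ≠ 1

end cert

variable {K : Type*} [Field K] {G : Type*} [Group G]


/-- The group element `g` as an element of the group algebra. -/
noncomputable abbrev o (K : Type*) [Field K] {G : Type*} [Group G] (g : G) : MonoidAlgebra K G :=
  MonoidAlgebra.of K G g

/-- `β ↦ σ β - U⁻¹ σ β U`. -/
noncomputable def D (K : Type*) [Field K] {G : Type*} [Group G] (σ U : G) :
    MonoidAlgebra K G →ₗ[K] MonoidAlgebra K G where
  toFun β := o K σ * β - o K U⁻¹ * (o K σ * β) * o K U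
  map_add' a b := by simp only [mul_add, add_mul]; abel
  map_smul' a b := by
    simp only [mul_smul_comm, smul_mul_assoc, smul_sub, RingHom.id_apply]

lemma D_apply (σ U : G) (β : MonoidAlgebra K G) :
    D K σ U β = o K σ * β - o K U⁻¹ * (o K σ * β) * o K U := rfl

lemma D_mem (σ U : G) {β : MonoidAlgebra K G} (h : β ∈ Ring.jacobson (MonoidAlgebra K G)) :
    D K σ U β ∈ Ring.jacobson (MonoidAlgebra K G) := by
  rw [D_apply]
  apply sub_mem
  · exact Ideal.mul_mem_left _ _ h
  · exact Ideal.mul_mem_right _ _ (Ideal.mul_mem_left _ _ (Ideal.mul_mem_left _ _ h))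

lemma o_comm {g h : G} (e : g * h = h * g) : Commute (o K g) (o K h) := by
  have h1 := congrArg (MonoidAlgebra.of K G) e
  rw [map_mul, map_mul] at h1
  exact h1

/-- The composition of the operators `D` of a list. -/
noncomputable def Dl (K : Type*) [Field K] {G : Type*} [Group G] (σ U : ℕ → G) :
    List ℕ → (MonoidAlgebra K G →ₗ[K] MonoidAlgebra K G)
  | [] => LinearMap.id
  | (j :: l) => (D K (σ j) (U j)).comp (Dl K σ U l)

lemma Dl_mem (σ U : ℕ → G) (l : List ℕ) {β : MonoidAlgebra K G}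
    (h : β ∈ Ring.jacobson (MonoidAlgebra K G)) :
    Dl K σ U l β ∈ Ring.jacobson (MonoidAlgebra K G) := by
  induction l with
  | nil => exact h
  | cons j l ih =>
    rw [Dl, LinearMap.comp_apply]
    exact D_mem (σ j) (U j) ih

lemma D_comm {σ U σ' U' : G} (h1 : σ * σ' = σ' * σ) (h2 : σ * U' = U' * σ)
    (h3 : U * σ' = σ' * U) (h4 : U * U' = U' * U) (β : MonoidAlgebra K G) :
    D K σ U (D K σ' U' β) = D K σ' U' (D K σ U β) := by
  simp only [D_apply, mul_sub, sub_mul]
  have e1 : o K σ * (o K σ' * β) = o K σ' * (o K σ * β) := by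
    rw [← mul_assoc, ← mul_assoc, (o_comm (K := K) h1).eq]
  have e2 : o K σ * (o K U'⁻¹ * (o K σ' * β) * o K U') =
      o K U'⁻¹ * (o K σ' * (o K σ * β)) * o K U' := by
    rw [← e1]
    have h2' : σ * U'⁻¹ = U'⁻¹ * σ := (Commute.inv_right (show Commute σ U' from h2)).eq
    simp only [← mul_assoc]
    rw [(o_comm (K := K) h2').eq]
  have e3 : o K U⁻¹ * (o K σ * (o K σ' * β)) * o K U =
      o K σ' * (o K U⁻¹ * (o K σ * β) * o K U) := by
    rw [e1]
    have h3' : U⁻¹ * σ' = σ' * U⁻¹ := (Commute.inv_left (show Commute U σ' from h3)).eq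
    simp only [← mul_assoc]
    rw [(o_comm (K := K) h3').eq]
  have e4 : o K U⁻¹ * (o K σ * (o K U'⁻¹ * (o K σ' * β) * o K U')) * o K U =
      o K U'⁻¹ * (o K σ' * (o K U⁻¹ * (o K σ * β) * o K U)) * o K U' := by
    rw [e2, ← e3]
    have h4' : U⁻¹ * U'⁻¹ = U'⁻¹ * U⁻¹ := (Commute.inv_inv (show Commute U U' from h4)).eq
    have h5 : U' * U = U * U' := h4.symm
    calc o K U⁻¹ * (o K U'⁻¹ * (o K σ' * (o K σ * β)) * o K U') * o K U
        = (o K U⁻¹ * o K U'⁻¹) * (o K σ' * (o K σ * β)) * (o K U' * o K U) := by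
          simp only [mul_assoc]
      _ = (o K U'⁻¹ * o K U⁻¹) * (o K σ' * (o K σ * β)) * (o K U * o K U') := by
          rw [(o_comm (K := K) h4').eq, (o_comm (K := K) h5).eq]
      _ = o K U'⁻¹ * (o K U⁻¹ * (o K σ * (o K σ' * β)) * o K U) * o K U' := by
          rw [e1]; simp only [mul_assoc]
  rw [e4, e3, e2, e1]
  abel

variable {q : ℕ} {l : List ℕ} {s σ U : ℕ → G} {s₀ : G}

lemma Dl_comm {j : ℕ} (h : ∀ i ∈ l, i ≠ j) (h1 : ∀ i ∈ l, σ i * σ j = σ j * σ i)
    (h2 : ∀ i ∈ l, σ i * U j = U j * σ i) (h3 : ∀ i ∈ l, U i * σ j = σ j * U i)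
    (h4 : ∀ i ∈ l, U i * U j = U j * U i) (β : MonoidAlgebra K G) :
    D K (σ j) (U j) (Dl K σ U l β) = Dl K σ U l (D K (σ j) (U j) β) := by
  induction l with
  | nil => rfl
  | cons i l ih =>
    simp only [Dl, LinearMap.comp_apply]
    rw [← ih (fun k hk => h k (List.mem_cons_of_mem _ hk))
      (fun k hk => h1 k (List.mem_cons_of_mem _ hk)) (fun k hk => h2 k (List.mem_cons_of_mem _ hk))
      (fun k hk => h3 k (List.mem_cons_of_mem _ hk)) (fun k hk => h4 k (List.mem_cons_of_mem _ hk))]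
    have hi : i ∈ i :: l := List.mem_cons_self
    exact D_comm (h1 i hi).symm (h3 i hi).symm (h2 i hi).symm (h4 i hi).symm _

lemma Dl_kill (c : Cert q l s σ U s₀) (hl : l.Nodup) {j : ℕ} (hj : j ∈ l) (a : K) :
    Dl K σ U l (a • o K (s j)) = 0 := by
  have key : D K (σ j) (U j) (a • o K (s j)) = 0 := by
    rw [map_smul, D_apply]
    have : o K (U j)⁻¹ * (o K (σ j) * o K (s j)) * o K (U j) = o K (σ j) * o K (s j) := by
      rw [← map_mul, ← map_mul, ← map_mul, mul_assoc, c.c2 j hj, inv_mul_cancel_left]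
    rw [this, sub_self, smul_zero]
  have gen : ∀ l' : List ℕ, l'.Nodup → (∀ i ∈ l', i ∈ l) → j ∈ l' →
      Dl K σ U l' (a • o K (s j)) = 0 := by
    intro l'
    induction l' with
    | nil => intro _ _ h; simp at h
    | cons i l' ih =>
      intro hn hs hj'
      rw [List.nodup_cons] at hn
      by_cases hij : i = j
      · subst hij
        simp only [Dl, LinearMap.comp_apply]
        have hne : ∀ k ∈ l', k ≠ i := fun k hk h => hn.1 (h ▸ hk)
        have hi : i ∈ l := hs i List.mem_cons_self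
        have hm : ∀ k ∈ l', k ∈ l := fun k hk => hs k (List.mem_cons_of_mem _ hk)
        rw [Dl_comm hne (fun k hk => c.c1 k (hm k hk) i hi (hne k hk))
          (fun k hk => c.c1' k (hm k hk) i hi (hne k hk))
          (fun k hk => (c.c1' i hi k (hm k hk) (hne k hk).symm).symm)
          (fun k hk => c.c1'' k (hm k hk) i hi (hne k hk)), key, map_zero]
      · simp only [Dl, LinearMap.comp_apply]
        rw [ih hn.2 (fun k hk => hs k (List.mem_cons_of_mem _ hk)), map_zero]
        rcases List.mem_cons.1 hj' with h | h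
        · exact absurd h.symm hij
        · exact h
  exact gen l hl (fun _ h => h) hj

lemma Dl_main (c : Cert q l s σ U s₀) (hl : l.Nodup) :
    Dl K σ U l (o K s₀) = o K ((l.map σ).prod * s₀) *
      (l.map fun j => 1 - o K (zz σ U s₀ j)).prod := by
  have gen : ∀ l' : List ℕ, l'.Nodup → (∀ i ∈ l', i ∈ l) →
      Dl K σ U l' (o K s₀) = o K ((l'.map σ).prod * s₀) *
        (l'.map fun j => 1 - o K (zz σ U s₀ j)).prod := by
    intro l'
    induction l' with
    | nil => intro _ _; simp [Dl]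
    | cons j l' ih =>
      intro hn hs
      rw [List.nodup_cons] at hn
      have hm : ∀ k ∈ l', k ∈ l := fun k hk => hs k (List.mem_cons_of_mem _ hk)
      have hj : j ∈ l := hs j List.mem_cons_self
      have hne : ∀ k ∈ l', k ≠ j := fun k hk h => hn.1 (h ▸ hk)
      simp only [Dl, LinearMap.comp_apply]
      rw [ih hn.2 hm, D_apply]
      set P := (l'.map σ).prod with hP
      set Q := (l'.map fun j => 1 - o K (zz σ U s₀ j)).prod with hQ
      have hPσ : σ j * P = P * σ j := by
        apply Commute.eq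
        rw [hP]
        apply Commute.list_prod_right
        intro x hx
        obtain ⟨k, hk, rfl⟩ := List.mem_map.1 hx
        exact c.c1 j hj k (hm k hk) (hne k hk).symm
      have hPU : P * U j = U j * P := by
        apply Commute.eq
        rw [hP]
        apply Commute.list_prod_left
        intro x hx
        obtain ⟨k, hk, rfl⟩ := List.mem_map.1 hx
        exact c.c1' k (hm k hk) j hj (hne k hk)
      have hQU : Q * o K (U j) = o K (U j) * Q := by
        apply Commute.eq
        rw [hQ]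
        apply Commute.list_prod_left
        intro x hx
        obtain ⟨k, hk, rfl⟩ := List.mem_map.1 hx
        exact (Commute.one_left _).sub_left (o_comm (c.c4 k (hm k hk) j hj (hne k hk)))
      have hPU' : (U j)⁻¹ * P = P * (U j)⁻¹ :=
        (Commute.inv_left (show Commute (U j) P from hPU.symm)).eq
      -- group computation
      have g1 : (U j)⁻¹ * (σ j * (P * s₀)) * U j = σ j * (P * s₀) * zz σ U s₀ j := by
        unfold zz
        have : σ j * (P * s₀) = P * (σ j * s₀) := by
          rw [← mul_assoc, hPσ, mul_assoc]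
        rw [this]
        rw [← mul_assoc (U j)⁻¹, hPU']
        simp only [mul_assoc, mul_inv_rev]
        rw [mul_inv_cancel_left, mul_inv_cancel_left]
      have g2 : o K (U j)⁻¹ * (o K (σ j) * (o K (P * s₀) * Q)) * o K (U j) =
          o K (σ j * (P * s₀)) * o K (zz σ U s₀ j) * Q := by
        rw [← map_mul, ← g1]
        simp only [map_mul, mul_assoc]
        rw [hQU]
      rw [g2]
      simp only [List.map_cons, List.prod_cons, map_mul, mul_sub, sub_mul, one_mul,
        mul_assoc, ← hP, ← hQ]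
  exact gen l hl (fun _ h => h)

/-- If `z ^ q = 1` then `(1 - z) y` is `q` times an idempotent and `(1 - z) ((1 - z) y) = q (1 - z)`,
for a suitable polynomial `y` in `z`; here `q = 2`, `y = 1` or `q = 3`, `y = 2 + z`. -/
lemma exists_cofactor (hq : (q = 2 ∨ q = 3) ∧ (q : K) ≠ 0) {z : G} (hz : z ^ q = 1) :
    ∃ y : MonoidAlgebra K G, (∀ x : MonoidAlgebra K G, Commute x (o K z) → Commute x y) ∧
      (1 - o K z) * ((1 - o K z) * y) = 1 - o K z := by
  obtain ⟨hq, hq0⟩ := hq
  rcases hq with rfl | rfl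
  · refine ⟨((2 : K)⁻¹) • 1, fun x _ => (Commute.one_right x).smul_right _, ?_⟩
    have h : o K z * o K z = 1 := by rw [← map_mul, ← pow_two, hz, map_one]
    rw [mul_smul_comm, mul_one, mul_smul_comm]
    have : (1 - o K z) * (1 - o K z) = (2 : K) • (1 - o K z) := by
      rw [mul_sub, sub_mul, sub_mul, h, two_smul]; simp only [one_mul, mul_one]; abel
    rw [this, smul_smul, inv_mul_cancel₀ (by exact_mod_cast hq0), one_smul]
  · refine ⟨((3 : K)⁻¹) • (1 + 1 + o K z), fun x hx =>
      (((Commute.one_right x).add_right (Commute.one_right x)).add_right hx).smul_right _, ?_⟩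
    have h : o K z * (o K z * o K z) = 1 := by
      rw [← map_mul, ← map_mul, ← pow_two, ← pow_succ', hz, map_one]
    rw [mul_smul_comm, mul_smul_comm]
    have : (1 - o K z) * ((1 - o K z) * (1 + 1 + o K z)) = (3 : K) • (1 - o K z) := by
      have h3 : (3 : K) • (1 - o K z) = (1 - o K z) + (1 - o K z) + (1 - o K z) := by
        rw [show (3 : K) = 1 + 1 + 1 by norm_num, add_smul, add_smul, one_smul]
      rw [h3]
      simp only [mul_add, mul_sub, sub_mul, one_mul, mul_one, h]
      abel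
    rw [this, smul_smul, inv_mul_cancel₀ (by exact_mod_cast hq0), one_smul]

/-- The product `∏ (1 - z_j)`. -/
noncomputable def QQ (K : Type*) [Field K] {G : Type*} [Group G] (z : ℕ → G) (l : List ℕ) :
    MonoidAlgebra K G := (l.map fun j => 1 - o K (z j)).prod

lemma QQ_cons (z : ℕ → G) (j : ℕ) (l : List ℕ) :
    QQ K z (j :: l) = (1 - o K (z j)) * QQ K z l := by
  simp [QQ]

lemma QQ_cofactor (hq : (q = 2 ∨ q = 3) ∧ (q : K) ≠ 0) {z : ℕ → G} (hl : l.Nodup)
    (hz : ∀ j ∈ l, z j ^ q = 1) (hc : ∀ i ∈ l, ∀ j ∈ l, i ≠ j → z i * z j = z j * z i) :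
    ∃ Y : MonoidAlgebra K G, (∀ x : MonoidAlgebra K G, (∀ j ∈ l, Commute x (o K (z j))) →
      Commute x Y) ∧ QQ K z l * (QQ K z l * Y) = QQ K z l := by
  induction l with
  | nil => exact ⟨1, fun x _ => Commute.one_right x, by simp [QQ]⟩
  | cons j l ih =>
    rw [List.nodup_cons] at hl
    have hne : ∀ k ∈ l, k ≠ j := fun k hk h => hl.1 (h ▸ hk)
    obtain ⟨Y, hY, hY'⟩ := ih hl.2 (fun k hk => hz k (List.mem_cons_of_mem _ hk))
      (fun i hi k hk => hc i (List.mem_cons_of_mem _ hi) k (List.mem_cons_of_mem _ hk))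
    obtain ⟨y, hy, hy'⟩ := exists_cofactor hq (hz j List.mem_cons_self)
    refine ⟨y * Y, fun x hx => (hy x (hx j List.mem_cons_self)).mul_right
      (hY x fun k hk => hx k (List.mem_cons_of_mem _ hk)), ?_⟩
    rw [QQ_cons]
    have hQz : Commute (QQ K z l) (o K (z j)) := by
      apply Commute.list_prod_left
      intro x hx
      obtain ⟨k, hk, rfl⟩ := List.mem_map.1 hx
      exact (Commute.one_left _).sub_left (o_comm (hc k (List.mem_cons_of_mem _ hk) j
        List.mem_cons_self (hne k hk)))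
    have hQz' : Commute (QQ K z l) (1 - o K (z j)) := (Commute.one_right _).sub_right hQz
    have hQy : Commute (QQ K z l) y := hy _ hQz
    calc (1 - o K (z j)) * QQ K z l * ((1 - o K (z j)) * QQ K z l * (y * Y))
        = (1 - o K (z j)) * (QQ K z l * (1 - o K (z j))) * (QQ K z l * y) * Y := by
          simp only [mul_assoc]
      _ = (1 - o K (z j)) * ((1 - o K (z j)) * QQ K z l) * (y * QQ K z l) * Y := by
          rw [hQz'.eq, hQy.eq]
      _ = (1 - o K (z j)) * (1 - o K (z j)) * (QQ K z l * y) * QQ K z l * Y := by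
          simp only [mul_assoc]
      _ = (1 - o K (z j)) * (1 - o K (z j)) * (y * QQ K z l) * QQ K z l * Y := by
          rw [hQy.eq]
      _ = ((1 - o K (z j)) * ((1 - o K (z j)) * y)) * (QQ K z l * (QQ K z l * Y)) := by
          simp only [mul_assoc]
      _ = (1 - o K (z j)) * QQ K z l := by rw [hy', hY']

lemma QQ_self_comm {z : ℕ → G} (hc : ∀ i ∈ l, ∀ j ∈ l, i ≠ j → z i * z j = z j * z i)
    {j : ℕ} (hj : j ∈ l) : Commute (QQ K z l) (o K (z j)) := by
  apply Commute.list_prod_left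
  intro x hx
  obtain ⟨k, hk, rfl⟩ := List.mem_map.1 hx
  refine (Commute.one_left _).sub_left ?_
  by_cases h : k = j
  · subst h; exact Commute.refl _
  · exact o_comm (hc k hk j hj h)

lemma QQ_coeff_cons (z : ℕ → G) (j : ℕ) (l : List ℕ) (g : G) :
    (QQ K z (j :: l)).coeff g = (QQ K z l).coeff g - (QQ K z l).coeff ((z j)⁻¹ * g) := by
  rw [QQ_cons, sub_mul, one_mul, MonoidAlgebra.coeff_sub, Finsupp.sub_apply]
  congr 1
  simp only [MonoidAlgebra.of_apply]
  rw [MonoidAlgebra.coeff_single_mul_apply, one_mul]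

lemma QQ_apply_ne (z : ℕ → G) (l : List ℕ) (g : G)
    (hg : ∀ l' : List ℕ, l'.Sublist l → (l'.map z).prod ≠ g) : (QQ K z l).coeff g = 0 := by
  induction l generalizing g with
  | nil =>
    have := hg [] (List.Sublist.refl _)
    simp only [List.map_nil, List.prod_nil] at this
    simp only [QQ, List.map_nil, List.prod_nil]
    rw [MonoidAlgebra.one_def, MonoidAlgebra.coeff_single]
    exact Finsupp.single_eq_of_ne this.symm
  | cons j l ih =>
    have h1 := ih g (fun l' hl' => hg l' (hl'.cons _))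
    have h2 := ih ((z j)⁻¹ * g) (fun l' hl' h => hg (j :: l') (hl'.cons_cons j)
      (by rw [List.map_cons, List.prod_cons, h, mul_inv_cancel_left]))
    rw [QQ_coeff_cons, h1, h2, sub_zero]

lemma QQ_apply_one (z : ℕ → G) (l : List ℕ)
    (hg : ∀ l' : List ℕ, l'.Sublist l → l' ≠ [] → (l'.map z).prod ≠ 1) :
    (QQ K z l).coeff 1 = 1 := by
  induction l with
  | nil =>
    simp only [QQ, List.map_nil, List.prod_nil]
    exact MonoidAlgebra.coeff_one_one
  | cons j l ih =>
    have h1 := ih (fun l' hl' => hg l' (hl'.cons _))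
    have h2 : (QQ K z l).coeff ((z j)⁻¹ * 1) = 0 := by
      apply QQ_apply_ne
      intro l' hl' h
      apply hg (j :: l') (hl'.cons_cons j) (by simp)
      rw [List.map_cons, List.prod_cons, h, mul_inv_cancel_left]
    rw [QQ_coeff_cons, h1, h2, sub_zero]

/-- A group algebra element whose support has a certificate does not lie in the radical. -/
theorem not_mem_jacobson (hq : (q = 2 ∨ q = 3) ∧ (q : K) ≠ 0) (c : Cert q l s σ U s₀)
    (hl : l.Nodup) (a₀ : K) (ha : a₀ ≠ 0) (a : ℕ → K) :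
    a₀ • o K s₀ + (l.map fun j => a j • o K (s j)).sum ∉ Ring.jacobson (MonoidAlgebra K G) := by
  intro h
  have h1 := Dl_mem σ U l h
  have h2 : Dl K σ U l (l.map fun j => a j • o K (s j)).sum = 0 := by
    rw [map_list_sum, List.map_map]
    apply List.sum_eq_zero
    intro x hx
    obtain ⟨j, hj, rfl⟩ := List.mem_map.1 hx
    exact Dl_kill c hl hj (a j)
  rw [map_add, h2, add_zero, map_smul, Dl_main c hl] at h1
  have h3 : QQ K (zz σ U s₀) l ∈ Ring.jacobson (MonoidAlgebra K G) := by
    have h4 := Ideal.mul_mem_left _ (o K ((l.map σ).prod * s₀)⁻¹) (Ideal.mul_mem_left _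
      (algebraMap K (MonoidAlgebra K G) a₀⁻¹) h1)
    rw [← Algebra.smul_def, smul_smul, inv_mul_cancel₀ ha, one_smul, ← mul_assoc, ← map_mul,
      inv_mul_cancel, map_one, one_mul] at h4
    exact h4
  set Q := QQ K (zz σ U s₀) l with hQ
  obtain ⟨Y, hY, hY'⟩ := QQ_cofactor hq (K := K) hl c.c3 c.c4'
  rw [← hQ] at hY'
  have hQY : Commute Q Y := hY Q fun j hj => QQ_self_comm c.c4' hj
  have he : (Q * Y) * (Q * Y) = Q * Y := by
    calc (Q * Y) * (Q * Y) = Q * (Y * Q) * Y := by simp only [mul_assoc]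
      _ = Q * (Q * Y) * Y := by rw [hQY.eq]
      _ = Q * Y := by rw [hY']
  have he' : Q * Y = 0 := idem_not_mem he (Ideal.mul_mem_right _ _ h3)
  have hQ0 : Q = 0 := by rw [← hY', he', mul_zero]
  have hQ1 : Q.coeff 1 = 1 := QQ_apply_one _ _ fun l' hl' hne =>
    c.c5 l' (List.mem_sublists.2 hl') hne
  rw [hQ0, MonoidAlgebra.coeff_zero, Finsupp.zero_apply] at hQ1
  exact zero_ne_one hQ1

end Pool.Agent.L7h59.GG
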