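import Pool.Agent.L7h59.GG.Alg

/-!
# The space of the groups with underlying set the natural numbers
-/

set_option autoImplicit false

namespace Pool.Agent.L7h59.GG

/-- `m` is a group operation on the set of the natural numbers. -/
def IsGroupOp (m : ℕ → ℕ → ℕ) : Prop :=
  (∀ a b c, m (m a b) c = m a (m b c)) ∧
    ∃ e, (∀ a, m e a = a ∧ m a e = a) ∧ ∀ a, ∃ b, m a b = e ∧ m b a = e

/-- The space of all group operations on the set of the natural numbers, a subspace of the
product space `ℕ → ℕ → ℕ` (where `ℕ` is discrete). -/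
def GroupSpace : Type := {m : ℕ → ℕ → ℕ // IsGroupOp m}

instance : TopologicalSpace GroupSpace :=
  inferInstanceAs (TopologicalSpace {m : ℕ → ℕ → ℕ // IsGroupOp m})

/-- The group with underlying set the natural numbers and the operation `m`. -/
def Gp (_ : GroupSpace) : Type := ℕ

/-- The neutral element of `m`. -/
noncomputable def one (m : GroupSpace) : ℕ := Classical.choose m.2.2

lemma one_spec (m : GroupSpace) : (∀ a, m.1 (one m) a = a ∧ m.1 a (one m) = a) ∧
    ∀ a, ∃ b, m.1 a b = one m ∧ m.1 b a = one m := Classical.choose_spec m.2.2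

/-- The inverse of an element. -/
noncomputable def inv (m : GroupSpace) (a : ℕ) : ℕ := Classical.choose ((one_spec m).2 a)

lemma inv_spec (m : GroupSpace) (a : ℕ) : m.1 a (inv m a) = one m ∧ m.1 (inv m a) a = one m :=
  Classical.choose_spec ((one_spec m).2 a)

noncomputable instance (m : GroupSpace) : Group (Gp m) where
  mul a b := m.1 a b
  mul_assoc := m.2.1
  one := one m
  one_mul a := ((one_spec m).1 a).1
  mul_one a := ((one_spec m).1 a).2
  inv a := inv m a
  inv_mul_cancel a := (inv_spec m a).2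

/-- The element `a` of `Gp m`. -/
def lab (m : GroupSpace) (a : ℕ) : Gp m := a

/-- The underlying natural number. -/
def num {m : GroupSpace} (a : Gp m) : ℕ := a

lemma num_mul {m : GroupSpace} (a b : Gp m) : num (a * b) = m.1 (num a) (num b) := rfl

lemma num_inj {m : GroupSpace} {a b : Gp m} (h : num a = num b) : a = b := h

lemma inv_eq_iff (m : GroupSpace) (a b : ℕ) : inv m a = b ↔ m.1 a b = one m := by
  constructor
  · rintro rfl; exact (inv_spec m a).1
  · intro h
    have : (lab m a) * (lab m b) = 1 := h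
    exact inv_eq_of_mul_eq_one_right this

lemma one_eq_iff (m : GroupSpace) (e : ℕ) : one m = e ↔ m.1 e e = e := by
  constructor
  · rintro rfl; exact ((one_spec m).1 _).1
  · intro h
    have : (lab m e) * (lab m e) = lab m e := h
    exact (mul_eq_left.1 this).symm

/-! ### Continuity -/

lemma cont_mul {f g : GroupSpace → ℕ} (hf : Continuous f) (hg : Continuous g) :
    Continuous fun m : GroupSpace => m.1 (f m) (g m) := by
  have h : Continuous fun p : ℕ × ℕ × GroupSpace => p.2.2.1 p.1 p.2.1 := by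
    rw [continuous_prod_of_discrete_left]
    intro a
    rw [continuous_prod_of_discrete_left]
    intro b
    exact (continuous_apply b).comp ((continuous_apply a).comp continuous_subtype_val)
  exact h.comp (hf.prodMk (hg.prodMk continuous_id))

lemma isOpen_eq {f g : GroupSpace → ℕ} (hf : Continuous f) (hg : Continuous g) :
    IsOpen {m | f m = g m} :=
  (isOpen_discrete {p : ℕ × ℕ | p.1 = p.2}).preimage (hf.prodMk hg)

lemma isOpen_ne {f g : GroupSpace → ℕ} (hf : Continuous f) (hg : Continuous g) :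
    IsOpen {m | f m ≠ g m} :=
  (isOpen_discrete {p : ℕ × ℕ | p.1 ≠ p.2}).preimage (hf.prodMk hg)

lemma cont_one : Continuous one := by
  rw [continuous_discrete_rng]
  intro e
  have : one ⁻¹' {e} = {m : GroupSpace | m.1 e e = e} := by
    ext m; exact one_eq_iff m e
  rw [this]
  exact isOpen_eq (cont_mul continuous_const continuous_const) continuous_const

lemma cont_inv {f : GroupSpace → ℕ} (hf : Continuous f) : Continuous fun m => inv m (f m) := by
  rw [continuous_discrete_rng]
  intro b
  have : (fun m => inv m (f m)) ⁻¹' {b} = {m : GroupSpace | m.1 (f m) b = one m} := by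
    ext m; exact inv_eq_iff m _ b
  rw [this]
  exact isOpen_eq (cont_mul hf continuous_const) cont_one

/-- A family of elements, one for each group, that depends continuously on the group. -/
def Cont (f : ∀ m : GroupSpace, Gp m) : Prop := Continuous fun m => num (f m)

lemma Cont.mul {f g : ∀ m : GroupSpace, Gp m} (hf : Cont f) (hg : Cont g) :
    Cont fun m => f m * g m := cont_mul hf hg

lemma Cont.inv {f : ∀ m : GroupSpace, Gp m} (hf : Cont f) : Cont fun m => (f m)⁻¹ := cont_inv hf

lemma Cont.one : Cont fun _ => 1 := cont_one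

lemma Cont.lab (a : ℕ) : Cont fun m => lab m a := continuous_const

lemma Cont.pow {f : ∀ m : GroupSpace, Gp m} (hf : Cont f) (n : ℕ) : Cont fun m => f m ^ n := by
  induction n with
  | zero => simpa using Cont.one
  | succ n ih => simpa only [pow_succ] using ih.mul hf

lemma Cont.list_prod {f : ∀ m : GroupSpace, ℕ → Gp m} (hf : ∀ j, Cont fun m => f m j)
    (l : List ℕ) : Cont fun m => (l.map (f m)).prod := by
  induction l with
  | nil => simpa using Cont.one
  | cons j l ih => simpa only [List.map_cons, List.prod_cons] using (hf j).mul ih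

lemma Cont.isOpen_eq {f g : ∀ m : GroupSpace, Gp m} (hf : Cont f) (hg : Cont g) :
    IsOpen {m | f m = g m} := GG.isOpen_eq hf hg

lemma Cont.isOpen_ne {f g : ∀ m : GroupSpace, Gp m} (hf : Cont f) (hg : Cont g) :
    IsOpen {m | f m ≠ g m} := GG.isOpen_ne hf hg

lemma isOpen_forall_mem {α : Type*} (l : List α) (p : α → GroupSpace → Prop)
    (h : ∀ i ∈ l, IsOpen {m | p i m}) : IsOpen {m | ∀ i ∈ l, p i m} := by
  induction l with
  | nil => simp
  | cons j l ih =>
    have h1 := h j List.mem_cons_self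
    have h2 := ih fun i hi => h i (List.mem_cons_of_mem _ hi)
    have : {m | ∀ i ∈ j :: l, p i m} = {m | p j m} ∩ {m | ∀ i ∈ l, p i m} := by
      ext m
      simp
    rw [this]
    exact h1.inter h2

lemma isOpen_imp_const {c : Prop} {p : GroupSpace → Prop} (h : c → IsOpen {m | p m}) :
    IsOpen {m | c → p m} := by
  by_cases hc : c
  · simpa [hc] using h hc
  · simp [hc]

/-- The certificate for a list of labels. -/
def LCert (q : ℕ) (l : List ℕ) (s₀ : ℕ) (σ U : ℕ → ℕ) (m : GroupSpace) : Prop :=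
  Cert q l (fun j => lab m j) (fun j => lab m (σ j)) (fun j => lab m (U j)) (lab m s₀)

lemma isOpen_LCert (q : ℕ) (l : List ℕ) (s₀ : ℕ) (σ U : ℕ → ℕ) :
    IsOpen {m | LCert q l s₀ σ U m} := by
  have hσ : ∀ j, Cont fun m => lab m (σ j) := fun j => Cont.lab _
  have hU : ∀ j, Cont fun m => lab m (U j) := fun j => Cont.lab _
  have hz : ∀ j, Cont fun m => zz (fun j => lab m (σ j)) (fun j => lab m (U j)) (lab m s₀) j :=
    fun j => (((((hσ j).mul (Cont.lab s₀)).inv.mul (hU j).inv).mul
      ((hσ j).mul (Cont.lab s₀))).mul (hU j))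
  have e : {m | LCert q l s₀ σ U m} =
      {m | ∀ i ∈ l, ∀ j ∈ l, i ≠ j → lab m (σ i) * lab m (σ j) = lab m (σ j) * lab m (σ i)} ∩
      {m | ∀ i ∈ l, ∀ j ∈ l, i ≠ j → lab m (σ i) * lab m (U j) = lab m (U j) * lab m (σ i)} ∩
      {m | ∀ i ∈ l, ∀ j ∈ l, i ≠ j → lab m (U i) * lab m (U j) = lab m (U j) * lab m (U i)} ∩
      {m | ∀ j ∈ l, lab m (σ j) * lab m j * lab m (U j) =
        lab m (U j) * (lab m (σ j) * lab m j)} ∩
      {m | ∀ j ∈ l, zz (fun j => lab m (σ j)) (fun j => lab m (U j)) (lab m s₀) j ^ q = 1} ∩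
      {m | ∀ i ∈ l, ∀ j ∈ l, i ≠ j → zz (fun j => lab m (σ j)) (fun j => lab m (U j))
        (lab m s₀) i * lab m (U j) = lab m (U j) *
          zz (fun j => lab m (σ j)) (fun j => lab m (U j)) (lab m s₀) i} ∩
      {m | ∀ i ∈ l, ∀ j ∈ l, i ≠ j → zz (fun j => lab m (σ j)) (fun j => lab m (U j))
        (lab m s₀) i * zz (fun j => lab m (σ j)) (fun j => lab m (U j)) (lab m s₀) j =
          zz (fun j => lab m (σ j)) (fun j => lab m (U j)) (lab m s₀) j *
          zz (fun j => lab m (σ j)) (fun j => lab m (U j)) (lab m s₀) i} ∩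
      {m | ∀ l' ∈ l.sublists, l' ≠ [] → (l'.map (zz (fun j => lab m (σ j))
        (fun j => lab m (U j)) (lab m s₀))).prod ≠ 1} := by
    ext m
    constructor
    · intro h
      exact ⟨⟨⟨⟨⟨⟨⟨h.c1, h.c1'⟩, h.c1''⟩, h.c2⟩, h.c3⟩, h.c4⟩, h.c4'⟩, h.c5⟩
    · rintro ⟨⟨⟨⟨⟨⟨⟨h1, h2⟩, h3⟩, h4⟩, h5⟩, h6⟩, h7⟩, h8⟩
      exact ⟨h1, h2, h3, h4, h5, h6, h7, h8⟩
  rw [e]
  refine (((((((?_ : IsOpen _).inter ?_).inter ?_).inter ?_).inter ?_).inter ?_).inter ?_).inter ?_
  · exact isOpen_forall_mem _ _ fun i _ => isOpen_forall_mem _ _ fun j _ =>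
      isOpen_imp_const fun _ => ((hσ i).mul (hσ j)).isOpen_eq ((hσ j).mul (hσ i))
  · exact isOpen_forall_mem _ _ fun i _ => isOpen_forall_mem _ _ fun j _ =>
      isOpen_imp_const fun _ => ((hσ i).mul (hU j)).isOpen_eq ((hU j).mul (hσ i))
  · exact isOpen_forall_mem _ _ fun i _ => isOpen_forall_mem _ _ fun j _ =>
      isOpen_imp_const fun _ => ((hU i).mul (hU j)).isOpen_eq ((hU j).mul (hU i))
  · exact isOpen_forall_mem _ _ fun j _ =>
      (((hσ j).mul (Cont.lab j)).mul (hU j)).isOpen_eq ((hU j).mul ((hσ j).mul (Cont.lab j)))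
  · exact isOpen_forall_mem _ _ fun j _ => ((hz j).pow q).isOpen_eq Cont.one
  · exact isOpen_forall_mem _ _ fun i _ => isOpen_forall_mem _ _ fun j _ =>
      isOpen_imp_const fun _ => ((hz i).mul (hU j)).isOpen_eq ((hU j).mul (hz i))
  · exact isOpen_forall_mem _ _ fun i _ => isOpen_forall_mem _ _ fun j _ =>
      isOpen_imp_const fun _ => ((hz i).mul (hz j)).isOpen_eq ((hz j).mul (hz i))
  · exact isOpen_forall_mem _ _ fun l' _ => isOpen_imp_const fun _ =>
      (Cont.list_prod hz l').isOpen_ne Cont.one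

/-! ### Overgroups -/

/-- A group in which every nontrivial element of a given subgroup has a nontrivial commutator of
order dividing `q`. -/
lemma exists_overgroup (L : Type) [Group L] (q : ℕ) (hq : 1 < q) :
    ∃ (H : Type) (_ : Group H) (h : L →* H), Function.Injective h ∧
      ∀ g : L, g ≠ 1 → ∃ u : H, (h g)⁻¹ * u⁻¹ * h g * u ≠ 1 ∧
        ((h g)⁻¹ * u⁻¹ * h g * u) ^ q = 1 := by
  classical
  refine ⟨RegularWreathProduct (Multiplicative (ZMod q)) L, inferInstance,
    RegularWreathProduct.inl, ?_, ?_⟩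
  · intro a b hab
    exact congrArg RegularWreathProduct.right hab
  · intro g hg
    let c : Multiplicative (ZMod q) := Multiplicative.ofAdd 1
    have : Fact (1 < q) := ⟨hq⟩
    have hc : c ≠ 1 := by
      intro h
      have : (1 : ZMod q) = 0 := h
      exact one_ne_zero this
    let u : RegularWreathProduct (Multiplicative (ZMod q)) L := ⟨Pi.mulSingle 1 c, 1⟩
    refine ⟨u, ?_, ?_⟩
    · intro h
      have h1 := congrArg (fun w => RegularWreathProduct.left w 1) h
      simp only [RegularWreathProduct.mul_left, RegularWreathProduct.inv_left,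
        RegularWreathProduct.inv_right, RegularWreathProduct.left_inl,
        RegularWreathProduct.right_inl, RegularWreathProduct.mul_right,
        RegularWreathProduct.one_left, Pi.mul_apply, Pi.inv_apply, Pi.one_apply, u] at h1
      simp [hg] at h1
      exact hc h1
    · have hpow : ∀ (w : RegularWreathProduct (Multiplicative (ZMod q)) L), w.right = 1 →
          ∀ n : ℕ, w ^ n = ⟨w.left ^ n, 1⟩ := by
        intro w hw n
        induction n with
        | zero => simp only [pow_zero]; rfl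
        | succ n ih =>
          rw [pow_succ, ih, pow_succ]
          ext x <;> simp [hw]
      rw [hpow]
      · ext x
        · simp only [RegularWreathProduct.one_left, Pi.pow_apply, Pi.one_apply]
          generalize (((RegularWreathProduct.inl g)⁻¹ * u⁻¹ * RegularWreathProduct.inl g *
            u).left x) = y
          have : (q : ZMod q) = 0 := ZMod.natCast_self q
          change Multiplicative.ofAdd (q • (Multiplicative.toAdd y)) = 1
          rw [nsmul_eq_mul, this, zero_mul]
          rfl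
        · rfl
      · simp [u]

lemma map_zz {G W : Type*} [Group G] [Group W] (φ : G →* W) (σ U : ℕ → G) (s₀ : G) (j : ℕ) :
    zz (fun j => φ (σ j)) (fun j => φ (U j)) (φ s₀) j = φ (zz σ U s₀ j) := by
  simp [zz]

lemma Cert.of_injective {G W : Type*} [Group G] [Group W] {q : ℕ} {l : List ℕ} {s σ U : ℕ → G}
    {s₀ : G} (φ : G →* W) (hφ : Function.Injective φ)
    (c : Cert q l (fun j => φ (s j)) (fun j => φ (σ j)) (fun j => φ (U j)) (φ s₀)) :
    Cert q l s σ U s₀ := by
  obtain ⟨h1, h2, h3, h4, h5, h6, h7, h8⟩ := c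
  simp only [map_zz] at h5 h6 h7
  refine ⟨fun i hi j hj hij => hφ (by simpa only [map_mul] using h1 i hi j hj hij),
    fun i hi j hj hij => hφ (by simpa only [map_mul] using h2 i hi j hj hij),
    fun i hi j hj hij => hφ (by simpa only [map_mul] using h3 i hi j hj hij),
    fun j hj => hφ (by simpa only [map_mul] using h4 j hj),
    fun j hj => hφ (by simpa only [map_pow, map_one] using h5 j hj),
    fun i hi j hj hij => hφ (by simpa only [map_mul] using h6 i hi j hj hij),
    fun i hi j hj hij => hφ (by simpa only [map_mul] using h7 i hi j hj hij),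
    fun l' hl' hne h => h8 l' hl' hne ?_⟩
  have e : zz (fun j => φ (σ j)) (fun j => φ (U j)) (φ s₀) = φ ∘ zz σ U s₀ := by
    funext j; exact map_zz φ σ U s₀ j
  rw [e, ← List.map_map, ← map_list_prod, h, map_one]

lemma exists_cert (L : Type) [Group L] (q : ℕ) (hq : 1 < q) (l : List ℕ) (hl : l.Nodup)
    (s : ℕ → L) (s₀ : L) (hne : ∀ j ∈ l, s j ≠ s₀) :
    ∃ (W : Type) (_ : Group W) (φ : L →* W) (σ U : ℕ → W), Function.Injective φ ∧
      Cert q l (fun j => φ (s j)) σ U (φ s₀) := by
  classical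
  obtain ⟨H, _, h, hinj, hH⟩ := exists_overgroup L q hq
  have hu : ∀ j : ℕ, ∃ u : H, j ∈ l →
      (h ((s j)⁻¹ * s₀))⁻¹ * u⁻¹ * h ((s j)⁻¹ * s₀) * u ≠ 1 ∧
        ((h ((s j)⁻¹ * s₀))⁻¹ * u⁻¹ * h ((s j)⁻¹ * s₀) * u) ^ q = 1 := by
    intro j
    by_cases hj : j ∈ l
    · obtain ⟨u, hu⟩ := hH ((s j)⁻¹ * s₀) (fun h0 => hne j hj (inv_mul_eq_one.1 h0))
      exact ⟨u, fun _ => hu⟩
    · exact ⟨1, fun h0 => absurd h0 hj⟩
  choose u hu using hu
  let φ : L →* (ℕ → H) :=
    { toFun := fun g _ => h g
      map_one' := by funext _; simp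
      map_mul' := fun a b => by funext _; simp }
  let σ : ℕ → ℕ → H := fun j => Pi.mulSingle j (h (s j))⁻¹
  let U : ℕ → ℕ → H := fun j => Pi.mulSingle j (u j)
  have hz : ∀ j, zz σ U (φ s₀) j =
      Pi.mulSingle j ((h ((s j)⁻¹ * s₀))⁻¹ * (u j)⁻¹ * h ((s j)⁻¹ * s₀) * u j) := by
    intro j
    funext k
    by_cases hk : k = j
    · subst hk
      simp [zz, σ, U, φ, mul_assoc]
    · simp [zz, σ, U, φ, Pi.mulSingle_eq_of_ne hk]
  refine ⟨ℕ → H, inferInstance, φ, σ, U, ?_, ?_⟩
  · intro a b hab
    exact hinj (congrFun hab 0)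
  · have hcom : ∀ (i j : ℕ) (a b : H), i ≠ j →
        (Pi.mulSingle i a : ℕ → H) * Pi.mulSingle j b = Pi.mulSingle j b * Pi.mulSingle i a := by
      intro i j a b hij
      exact (Pi.mulSingle_commute (f := fun _ => H) hij a b).eq
    refine ⟨fun i _ j _ hij => hcom _ _ _ _ hij, fun i _ j _ hij => hcom _ _ _ _ hij,
      fun i _ j _ hij => hcom _ _ _ _ hij, ?_, ?_, ?_, ?_, ?_⟩
    · intro j _
      funext k
      by_cases hk : k = j
      · subst hk
        simp [σ, U, φ]
      · simp [σ, U, φ, Pi.mulSingle_eq_of_ne hk]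
    · intro j hj
      rw [hz, ← Pi.mulSingle_pow, (hu j hj).2, Pi.mulSingle_one]
    · intro i _ j _ hij
      rw [hz]
      exact hcom _ _ _ _ hij
    · intro i _ j _ hij
      rw [hz, hz]
      exact hcom _ _ _ _ hij
    · intro l' hl' hne' hprod
      rw [List.mem_sublists] at hl'
      obtain ⟨j, l'', rfl⟩ := List.exists_cons_of_ne_nil hne'
      have hj : j ∈ l := hl'.subset List.mem_cons_self
      have hnd : (j :: l'').Nodup := hl'.nodup hl
      rw [List.nodup_cons] at hnd
      have h1 := congrFun hprod j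
      rw [List.map_cons, List.prod_cons, hz, Pi.mul_apply, Pi.mulSingle_eq_same] at h1
      have h2 : ((l''.map (zz σ U (φ s₀))).prod : ℕ → H) j = 1 := by
        have h3 : ∀ l3 : List ℕ, j ∉ l3 → ((l3.map (zz σ U (φ s₀))).prod : ℕ → H) j = 1 := by
          intro l3
          induction l3 with
          | nil => intro _; simp
          | cons k l3 ih =>
            intro hk
            rw [List.mem_cons, not_or] at hk
            rw [List.map_cons, List.prod_cons, Pi.mul_apply, ih hk.2, hz,
              Pi.mulSingle_eq_of_ne hk.1, mul_one]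
        exact h3 _ hnd.1
      rw [h2, mul_one] at h1
      exact (hu j hj).1 h1

/-! ### Density -/

/-- A bijection between a countable infinite type and `ℕ` with prescribed values. -/
lemma exists_equiv {X : Type} [Countable X] [Infinite X] (f : ℕ → X) (hf : Function.Injective f)
    (N : ℕ) : ∃ e : X ≃ ℕ, ∀ i < N, e (f i) = i := by
  obtain ⟨e₀⟩ : Nonempty (X ≃ ℕ) := by
    have := (nonempty_denumerable_iff (α := X)).2 ⟨inferInstance, inferInstance⟩
    obtain ⟨d⟩ := this
    exact ⟨Denumerable.eqv X⟩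
  let x : Fin N ↪ ℕ := ⟨fun i => e₀ (f i), fun i j hij => Fin.ext (hf (e₀.injective hij))⟩
  let y : Fin N ↪ ℕ := ⟨fun i => i, fun i j hij => Fin.ext hij⟩
  have := Equiv.Perm.isMultiplyPretransitive ℕ N
  obtain ⟨π, hπ⟩ := MulAction.exists_smul_eq (Equiv.Perm ℕ) x y
  refine ⟨e₀.trans π, fun i hi => ?_⟩
  have := DFunLike.congr_fun hπ ⟨i, hi⟩
  exact this

lemma exists_group (m₀ : GroupSpace) (q : ℕ) (hq : 1 < q) (l : List ℕ) (hl : l.Nodup) (s₀ : ℕ)
    (hne : ∀ j ∈ l, j ≠ s₀) (N : ℕ) :
    ∃ m : GroupSpace, (∀ a < N, ∀ b < N, m.1 a b = m₀.1 a b) ∧ ∃ σ U : ℕ → ℕ, LCert q l s₀ σ U m := by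
  classical
  obtain ⟨W, _, φ, σ, U, hφ, c⟩ := exists_cert (Gp m₀) q hq l hl (lab m₀) (lab m₀ s₀) hne
  let S : Set W := Set.range φ ∪ (Set.range σ ∪ Set.range U)
  have hcount : S.Countable := by
    have : Countable (Gp m₀) := inferInstanceAs (Countable ℕ)
    exact (Set.countable_range _).union ((Set.countable_range _).union (Set.countable_range _))
  let G₁ : Subgroup W := Subgroup.closure S
  have hG₁ : Countable G₁ := by
    have : Countable S := hcount.to_subtype
    have h1 : Function.Surjective (FreeGroup.lift (fun x : S => (⟨x.1,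
        Subgroup.subset_closure x.2⟩ : G₁))) := by
      intro x
      have h2 : G₁ = (FreeGroup.lift (fun x : S => x.1)).range := by
        rw [FreeGroup.range_lift_eq_closure]
        simp [G₁]
      have h3 : x.1 ∈ (FreeGroup.lift (fun x : S => x.1)).range := h2 ▸ x.2
      obtain ⟨w, hw⟩ := h3
      refine ⟨w, Subtype.ext ?_⟩
      rw [← hw]
      have : (G₁.subtype).comp (FreeGroup.lift (fun x : S => (⟨x.1,
        Subgroup.subset_closure x.2⟩ : G₁))) = FreeGroup.lift (fun x : S => x.1) := by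
        ext x; simp
      exact DFunLike.congr_fun this w
    have : Countable (FreeGroup S) := by
      have : Countable (List (S × Bool)) := inferInstance
      exact Quot.mk_surjective.countable
    exact h1.countable
  have hmem : ∀ g : Gp m₀, φ g ∈ G₁ := fun g => Subgroup.subset_closure (Or.inl ⟨g, rfl⟩)
  let f : ℕ → G₁ := fun a => ⟨φ (lab m₀ a), hmem _⟩
  have hf : Function.Injective f := by
    intro a b hab
    exact hφ (congrArg Subtype.val hab)
  have : Infinite G₁ := Infinite.of_injective f hf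
  -- a bound for all relevant labels
  obtain ⟨N', hN', hN, hs, hlN⟩ : ∃ N', (∀ a < N, ∀ b < N, m₀.1 a b < N') ∧ N ≤ N' ∧ s₀ < N' ∧
      ∀ j ∈ l, j < N' := by
    let A : Finset ℕ := Finset.range N ∪ (Finset.range N ×ˢ Finset.range N).image
      (fun p => m₀.1 p.1 p.2) ∪ {s₀} ∪ l.toFinset
    have hA : ∀ x ∈ A, x < A.sup id + 1 := fun x hx => Nat.lt_succ_of_le (Finset.le_sup (f := id) hx)
    refine ⟨max N (A.sup id + 1), ?_, le_max_left _ _, ?_, ?_⟩
    · intro a ha b hb
      apply lt_max_of_lt_right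
      apply hA
      simp only [A, Finset.mem_union, Finset.mem_image, Finset.mem_product, Finset.mem_range]
      exact Or.inl (Or.inl (Or.inr ⟨(a, b), ⟨ha, hb⟩, rfl⟩))
    · apply lt_max_of_lt_right
      apply hA
      simp [A]
    · intro j hj
      apply lt_max_of_lt_right
      apply hA
      simp [A, hj]
  obtain ⟨e, he⟩ := exists_equiv f hf N'
  let mm : ℕ → ℕ → ℕ := fun a b => e (e.symm a * e.symm b)
  have hmm : IsGroupOp mm := by
    refine ⟨fun a b c => by simp [mm, mul_assoc], e 1, fun a => by simp [mm], fun a =>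
      ⟨e (e.symm a)⁻¹, by simp [mm]⟩⟩
  let m : GroupSpace := ⟨mm, hmm⟩
  have hfe : ∀ i < N', e.symm i = f i := fun i hi => by rw [← he i hi, e.symm_apply_apply, he i hi]
  refine ⟨m, ?_, ?_⟩
  · intro a ha b hb
    change e (e.symm a * e.symm b) = m₀.1 a b
    rw [hfe a (ha.trans_le hN), hfe b (hb.trans_le hN)]
    have : f a * f b = f (m₀.1 a b) := by
      apply Subtype.ext
      change φ (lab m₀ a) * φ (lab m₀ b) = φ (lab m₀ (m₀.1 a b))
      rw [← map_mul]
      rfl
    rw [this, he _ (hN' a ha b hb)]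
  · have hσ : ∀ j, σ j ∈ G₁ := fun j => Subgroup.subset_closure (Or.inr (Or.inl ⟨j, rfl⟩))
    have hU : ∀ j, U j ∈ G₁ := fun j => Subgroup.subset_closure (Or.inr (Or.inr ⟨j, rfl⟩))
    refine ⟨fun j => e ⟨σ j, hσ j⟩, fun j => e ⟨U j, hU j⟩, ?_⟩
    let ψ : Gp m →* W :=
      { toFun := fun a => (e.symm (num a) : G₁)
        map_one' := by
          have h1 : (1 : Gp m) * 1 = 1 := one_mul 1
          have h2 : e (e.symm (num (1 : Gp m)) * e.symm (num (1 : Gp m))) = num (1 : Gp m) := h1
          have h3 : e.symm (num (1 : Gp m)) * e.symm (num (1 : Gp m)) =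
            e.symm (num (1 : Gp m)) := e.injective (by rw [h2, e.apply_symm_apply])
          rw [mul_eq_left.1 h3]
          rfl
        map_mul' := fun a b => by
          have : num (a * b) = e (e.symm (num a) * e.symm (num b)) := rfl
          rw [this, e.symm_apply_apply]
          rfl }
    have hψ : Function.Injective ψ := by
      intro a b hab
      exact e.symm.injective (Subtype.ext hab)
    apply Cert.of_injective ψ hψ
    have e1 : ∀ j < N', ψ (lab m j) = φ (lab m₀ j) := by
      intro j hj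
      change ((e.symm j : G₁) : W) = _
      rw [hfe j hj]
    have e2 : (fun j => ψ (lab m (e ⟨σ j, hσ j⟩))) = σ := by
      funext j
      change ((e.symm (e ⟨σ j, hσ j⟩) : G₁) : W) = _
      rw [e.symm_apply_apply]
    have e3 : (fun j => ψ (lab m (e ⟨U j, hU j⟩))) = U := by
      funext j
      change ((e.symm (e ⟨U j, hU j⟩) : G₁) : W) = _
      rw [e.symm_apply_apply]
    rw [e2, e3, e1 s₀ hs]
    exact ⟨c.c1, c.c1', c.c1'', fun j hj => by rw [e1 j (hlN j hj)]; exact c.c2 j hj,
      c.c3, c.c4, c.c4', c.c5⟩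

lemma dense_LCert (q : ℕ) (hq : 1 < q) (l : List ℕ) (hl : l.Nodup) (s₀ : ℕ)
    (hne : ∀ j ∈ l, j ≠ s₀) : Dense {m : GroupSpace | ∃ σ U : ℕ → ℕ, LCert q l s₀ σ U m} := by
  intro m₀
  choose m hm hc using fun N => exists_group m₀ q hq l hl s₀ hne N
  apply mem_closure_of_tendsto (f := m) (b := Filter.atTop)
  · refine tendsto_subtype_rng.2 ?_
    rw [tendsto_pi_nhds]
    intro a
    rw [tendsto_pi_nhds]
    intro b
    apply tendsto_const_nhds.congr'
    filter_upwards [Filter.eventually_gt_atTop (max a b)] with N hN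
    exact (hm N a ((le_max_left a b).trans_lt hN) b ((le_max_right a b).trans_lt hN)).symm
  · exact Filter.Eventually.of_forall hc

lemma residual_LCert (q : ℕ) (hq : 1 < q) (l : List ℕ) (hl : l.Nodup) (s₀ : ℕ)
    (hne : ∀ j ∈ l, j ≠ s₀) :
    {m : GroupSpace | ∃ σ U : ℕ → ℕ, LCert q l s₀ σ U m} ∈ residual GroupSpace := by
  apply residual_of_dense_open _ (dense_LCert q hq l hl s₀ hne)
  have : {m : GroupSpace | ∃ σ U : ℕ → ℕ, LCert q l s₀ σ U m} =
      ⋃ σ : ℕ → ℕ, ⋃ U : ℕ → ℕ, {m | LCert q l s₀ σ U m} := by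
    ext m; simp
  rw [this]
  exact isOpen_iUnion fun σ => isOpen_iUnion fun U => isOpen_LCert q l s₀ σ U

end Pool.Agent.L7h59.GG
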